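import Mathlib
import Pool.Agent.H590.PL.Stm

/-!
# Planar case of MP_85210c_gt: task GA
-/

set_option autoImplicit false
set_option linter.unusedSectionVars false

noncomputable section

open MeasureTheory Filter Topology Set
open scoped BigOperators ENNReal

namespace H448PL

open H590PL

section

variable {κ : Type} [Fintype κ]

/-- the summand of `D` -/
def MM (p : ℝ) (v : κ → P2) (x : P2) (i j : κ) : ℝ :=
  dt (v i) (v j) ^ 2 * (p * |ip (v i) x| ^ (p - 2)) * (p * |ip (v j) x| ^ (p - 2))

theorem MM_symm (p : ℝ) (v : κ → P2) (x : P2) (i j : κ) : MM p v x i j = MM p v x j i := by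
  unfold MM dt
  ring

theorem MM_self (p : ℝ) (v : κ → P2) (x : P2) (i : κ) : MM p v x i i = 0 := by
  unfold MM dt
  ring

theorem MM_nonneg (p : ℝ) (hp : 0 ≤ p) (v : κ → P2) (x : P2) (i j : κ) : 0 ≤ MM p v x i j := by
  unfold MM
  exact mul_nonneg (mul_nonneg (sq_nonneg _)
    (mul_nonneg hp (Real.rpow_nonneg (abs_nonneg _) _)))
    (mul_nonneg hp (Real.rpow_nonneg (abs_nonneg _) _))

open Classical in
theorem bu_eq (k : κ) (y : ℝ) (i : κ) : bu k y i = 1 + (if i = k then y else 0) := by
  unfold bu
  by_cases h : i = k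
  · subst h
    rw [Function.update_self, if_pos rfl]
  · rw [Function.update_of_ne h, if_neg h, add_zero]

theorem Ph_bu (p : ℝ) (v : κ → P2) (k : κ) (y : ℝ) (x : P2) :
    Ph p v (bu k y) x = Ph p v one x + y * tau p v k x := by
  classical
  unfold Ph one tau
  have h : ∀ i, bu k y i * |ip (v i) x| ^ p =
      1 * |ip (v i) x| ^ p + (if i = k then y * |ip (v k) x| ^ p else 0) := by
    intro i
    rw [bu_eq]
    by_cases hi : i = k
    · subst hi
      rw [if_pos rfl, if_pos rfl]
      ring
    · rw [if_neg hi, if_neg hi]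
      ring
  rw [Finset.sum_congr rfl (fun i _ => h i), Finset.sum_add_distrib, Finset.sum_ite_eq' Finset.univ k]
  rw [if_pos (Finset.mem_univ k)]

theorem DD_one (p : ℝ) (v : κ → P2) (x : P2) :
    DD p v one x = (1 / 2) * ∑ i, ∑ j, MM p v x i j := by
  unfold DD one MM
  simp only [mul_one]

theorem DD_bu (p : ℝ) (v : κ → P2) (k : κ) (y : ℝ) (x : P2) :
    DD p v (bu k y) x = DD p v one x + y * ∑ j, MM p v x k j := by
  classical
  have h : ∀ i j, dt (v i) (v j) ^ 2 * (p * bu k y i * |ip (v i) x| ^ (p - 2)) *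
      (p * bu k y j * |ip (v j) x| ^ (p - 2)) =
      MM p v x i j + (if i = k then y * MM p v x k j else 0) +
        (if j = k then y * MM p v x i k else 0) := by
    intro i j
    rw [bu_eq, bu_eq]
    by_cases hi : i = k
    · by_cases hj : j = k
      · subst hi
        subst hj
        rw [if_pos rfl, if_pos rfl, MM_self]
        unfold dt
        ring
      · subst hi
        rw [if_pos rfl, if_pos rfl, if_neg hj, if_neg hj]
        unfold MM
        ring
    · by_cases hj : j = k
      · subst hj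
        rw [if_neg hi, if_neg hi, if_pos rfl, if_pos rfl]
        unfold MM
        ring
      · rw [if_neg hi, if_neg hi, if_neg hj, if_neg hj]
        unfold MM
        ring
  rw [DD_one]
  unfold DD
  rw [Finset.sum_congr rfl (fun i _ => Finset.sum_congr rfl (fun j _ => h i j))]
  have h2 : ∀ i, ∑ j, (MM p v x i j + (if i = k then y * MM p v x k j else 0) +
        (if j = k then y * MM p v x i k else 0)) =
      (∑ j, MM p v x i j) + (if i = k then y * ∑ j, MM p v x k j else 0) + y * MM p v x k i := by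
    intro i
    rw [Finset.sum_add_distrib, Finset.sum_add_distrib, Finset.sum_ite_eq' Finset.univ k,
      if_pos (Finset.mem_univ k), MM_symm p v x i k]
    congr 2
    by_cases hi : i = k
    · rw [if_pos hi, Finset.mul_sum]
      exact Finset.sum_congr rfl (fun j _ => if_pos hi)
    · rw [if_neg hi]
      exact Finset.sum_eq_zero (fun j _ => if_neg hi)
  rw [Finset.sum_congr rfl (fun i _ => h2 i), Finset.sum_add_distrib, Finset.sum_add_distrib,
    Finset.sum_ite_eq' Finset.univ k, if_pos (Finset.mem_univ k), ← Finset.mul_sum]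
  ring

theorem G1_eq (p : ℝ) (v : κ → P2) (k : κ) (x : P2) :
    G1 p v k x = Real.exp (-(Ph p v one x)) * ∑ j, MM p v x k j := rfl

theorem sum_le (p : ℝ) (hp : 0 ≤ p) (v : κ → P2) (k : κ) (x : P2) :
    ∑ j, MM p v x k j ≤ DD p v one x := by
  classical
  rw [DD_one]
  have h1 : ∑ i, ∑ j, MM p v x i j =
      (∑ j, MM p v x k j) + ∑ i ∈ Finset.univ.erase k, ∑ j, MM p v x i j :=
    (Finset.add_sum_erase Finset.univ (fun i => ∑ j, MM p v x i j) (Finset.mem_univ k)).symm
  have h2 : ∑ i ∈ Finset.univ.erase k, MM p v x i k ≤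
      ∑ i ∈ Finset.univ.erase k, ∑ j, MM p v x i j :=
    Finset.sum_le_sum (fun i _ => Finset.single_le_sum (f := fun j => MM p v x i j)
      (fun j _ => MM_nonneg p hp v x i j) (Finset.mem_univ k))
  have h3 : ∑ j, MM p v x k j = ∑ i ∈ Finset.univ.erase k, MM p v x i k := by
    rw [← Finset.add_sum_erase Finset.univ (fun j => MM p v x k j) (Finset.mem_univ k), MM_self,
      zero_add]
    exact Finset.sum_congr rfl (fun i _ => MM_symm p v x k i)
  linarith

theorem meas_ip (w : P2) : Measurable (fun x : P2 => ip w x) := by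
  unfold ip
  fun_prop

theorem meas_rp (w : P2) (q : ℝ) : Measurable (fun x : P2 => |ip w x| ^ q) := by
  have h := meas_ip w
  fun_prop

theorem meas_tau (p : ℝ) (v : κ → P2) (k : κ) : Measurable (tau p v k) := meas_rp (v k) p

theorem meas_Ph (p : ℝ) (v : κ → P2) (b : κ → ℝ) : Measurable (fun x => Ph p v b x) := by
  unfold Ph
  exact Finset.measurable_sum _ (fun i _ => (meas_rp (v i) p).const_mul _)

theorem meas_exp (p : ℝ) (v : κ → P2) (b : κ → ℝ) :
    Measurable (fun x => Real.exp (-(Ph p v b x))) :=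
  Real.measurable_exp.comp (meas_Ph p v b).neg

theorem meas_MM (p : ℝ) (v : κ → P2) (i j : κ) : Measurable (fun x => MM p v x i j) := by
  unfold MM
  exact (((meas_rp (v i) (p - 2)).const_mul p).const_mul _).mul ((meas_rp (v j) (p - 2)).const_mul p)

theorem meas_G1 (p : ℝ) (v : κ → P2) (k : κ) : Measurable (G1 p v k) := by
  have : G1 p v k = fun x => Real.exp (-(Ph p v one x)) * ∑ j, MM p v x k j := rfl
  rw [this]
  exact (meas_exp p v one).mul (Finset.measurable_sum _ (fun j _ => meas_MM p v k j))

theorem meas_DD (p : ℝ) (v : κ → P2) : Measurable (fun x => DD p v one x) := by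
  have : (fun x => DD p v one x) = fun x => (1 / 2) * ∑ i, ∑ j, MM p v x i j :=
    funext (fun x => DD_one p v x)
  rw [this]
  exact (Finset.measurable_sum _ (fun i _ => Finset.measurable_sum _
    (fun j _ => meas_MM p v i j))).const_mul _

end

theorem GA (h1 : S_GEN) (h2 : S_IA) : S_GA := by
  intro κ _ p hp1 hp2 v hv k
  obtain ⟨hA, -, hIA⟩ := h2 κ p hp1 hp2.le v hv
  obtain ⟨iAt, iAtl, iG, iGt, iGl⟩ := hIA k
  have hp0 : 0 ≤ p := by linarith
  set E : P2 → ℝ := fun x => Real.exp (-(Ph p v one x)) * DD p v one x with hE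
  set τ : P2 → ℝ := tau p v k with hτ
  set g1 : P2 → ℝ := G1 p v k with hg1
  set g0 : P2 → ℝ := fun x => E x - g1 x with hg0
  have hEm : Measurable E := (meas_exp p v one).mul (meas_DD p v)
  have hg1m : Measurable g1 := meas_G1 p v k
  have hτm : Measurable τ := meas_tau p v k
  have hsum : ∀ x, g0 x + g1 x = E x := fun x => sub_add_cancel _ _
  have hτ0 : ∀ x, 0 ≤ τ x := fun x => Real.rpow_nonneg (abs_nonneg _) _
  have hg1p : ∀ x, 0 ≤ g1 x := fun x => by
    rw [hg1, G1_eq]
    exact mul_nonneg (Real.exp_nonneg _) (Finset.sum_nonneg (fun j _ => MM_nonneg p hp0 v x k j))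
  have hg0p : ∀ x, 0 ≤ g0 x := fun x => by
    have h3 : g0 x = Real.exp (-(Ph p v one x)) * (DD p v one x - ∑ j, MM p v x k j) := by
      show Real.exp (-(Ph p v one x)) * DD p v one x - G1 p v k x = _
      rw [G1_eq]
      ring
    rw [h3]
    exact mul_nonneg (Real.exp_nonneg _) (sub_nonneg.2 (sum_le p hp0 v k x))
  have hz : ∀ x, τ x = 0 → g1 x = 0 := by
    intro x hx
    have h3 : |ip (v k) x| = 0 := by
      have h4 : |ip (v k) x| ^ p = 0 := hx
      exact (Real.rpow_eq_zero (abs_nonneg _) (by linarith)).1 h4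
    rw [hg1, G1_eq]
    have h5 : ∀ j, MM p v x k j = 0 := by
      intro j
      unfold MM
      rw [h3, Real.zero_rpow (by linarith : p - 2 ≠ 0)]
      ring
    rw [Finset.sum_eq_zero (fun j _ => h5 j), mul_zero]
  have hAA : ∀ y, AA p v (bu k y) = ∫ x, Real.exp (-(y * τ x)) * (g0 x + (1 + y) * g1 x) := by
    intro y
    unfold AA
    refine integral_congr_ae (ae_of_all _ fun x => ?_)
    show Real.exp (-(Ph p v (bu k y) x)) * DD p v (bu k y) x =
      Real.exp (-(y * tau p v k x)) *
        ((Real.exp (-(Ph p v one x)) * DD p v one x - G1 p v k x) + (1 + y) * G1 p v k x)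
    rw [Ph_bu, DD_bu, G1_eq, neg_add, Real.exp_add]
    ring
  have hA1 : AA p v one = ∫ x, (g0 x + g1 x) := by
    unfold AA
    exact integral_congr_ae (ae_of_all _ fun x => (hsum x).symm)
  have hR : RR p v k = ∫ x, (g1 x - τ x * (g0 x + g1 x)) := by
    unfold RR
    refine integral_congr_ae (ae_of_all _ fun x => ?_)
    show G1 p v k x - tau p v k x * (Real.exp (-(Ph p v one x)) * DD p v one x) =
      G1 p v k x - tau p v k x * (g0 x + g1 x)
    rw [hsum]
  have iE : Integrable E := hA
  have iEt : Integrable (fun x => E x * τ x) := iAt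
  have iEtl : Integrable (fun x => E x * (τ x * Real.log (τ x))) := iAtl
  have i0 : Integrable g0 := iE.sub iG
  have i0t : Integrable (fun x => g0 x * τ x) := by
    have : (fun x => g0 x * τ x) = fun x => E x * τ x - g1 x * τ x := by
      funext x
      show (E x - g1 x) * τ x = _
      ring
    rw [this]
    exact iEt.sub iGt
  have itl : Integrable (fun x => (g0 x + g1 x) * (τ x * Real.log (τ x))) := by
    have : (fun x => (g0 x + g1 x) * (τ x * Real.log (τ x))) =
        fun x => E x * (τ x * Real.log (τ x)) := by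
      funext x
      rw [hsum]
    rw [this]
    exact iEtl
  have key := h1 τ g0 g1 hτm (hEm.sub hg1m) hg1m hτ0 hg0p hg1p hz i0 iG i0t iGt itl iGl
  have hfun : (fun y : ℝ => (AA p v (bu k y) - AA p v one - y * Real.exp (-y) * RR p v k) / y ^ 2) =
      fun y : ℝ => ((∫ x, Real.exp (-(y * τ x)) * (g0 x + (1 + y) * g1 x)) - (∫ x, (g0 x + g1 x))
        - y * Real.exp (-y) * ∫ x, (g1 x - τ x * (g0 x + g1 x))) / y ^ 2 := by
    funext y
    rw [hAA, hA1, hR]
  rw [hfun]
  refine ⟨key.1, key.2.trans ?_⟩
  have iR : Integrable (fun x => G1 p v k x - tau p v k x * E x) := by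
    have : (fun x => G1 p v k x - tau p v k x * E x) = fun x => g1 x - E x * τ x := by
      funext x
      show G1 p v k x - tau p v k x * E x = G1 p v k x - E x * tau p v k x
      ring
    rw [this]
    exact iG.sub iEt
  have iD : Integrable (fun x => E x * (tau p v k x * Real.log (tau p v k x))
      - G1 p v k x * Real.log (tau p v k x) - G1 p v k x) := (iEtl.sub iGl).sub iG
  have hRHS : DAk p v k + RR p v k = ∫ x, ((E x * (tau p v k x * Real.log (tau p v k x))
      - G1 p v k x * Real.log (tau p v k x) - G1 p v k x) + (G1 p v k x - tau p v k x * E x)) := by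
    rw [integral_add iD iR]
    rfl
  rw [hRHS]
  refine integral_congr_ae (ae_of_all _ fun x => ?_)
  show (g0 x + g1 x) * (τ x * Real.log (τ x) - τ x) - g1 x * Real.log (τ x) =
    (E x * (τ x * Real.log (τ x)) - g1 x * Real.log (τ x) - g1 x) + (g1 x - τ x * E x)
  rw [hsum]
  ring

end H448PL
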